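import Pool.Agent.N671.DA.Win

/-!
# Pairs of denominators of good approximations near a thin set of pairs (helper284, after helper671)
-/

set_option autoImplicit false

namespace Pool.Agent.N284.DA

open Finset Classical
open Pool.Agent.N671.DA (Solves Expanding step_sum)

/-- grid points near the solutions, one coordinate -/
lemma grid_one {R c A₀ : ℝ} (hR : 0 ≤ R) (hc : 0 ≤ c) (hA : 0 ≤ A₀) {a N e t w : ℝ} (ha : |a| ≤ A₀)
    (hN : 1 ≤ N) (ht : 0 ≤ t) (he : 0 ≤ e) (hw : e + t ≤ w) {p : ℕ} (hp : 1 ≤ p) (hpN : (p : ℝ) ≤ N ^ e) :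
    ∃ S : Finset ℤ, (S.card : ℝ) ≤ ((2 * (R + 1) + 2 * A₀ + 2 * (c + 1) + 1) * (2 * c + 3)) * N ^ (w - t) ∧
      ∀ x : ℝ, |x| ≤ R → (∃ u : ℤ, |(p : ℝ) * x - a - u| ≤ c * N ^ (-t)) → round (x / N ^ (-w)) ∈ S := by
  have hN0 : 0 < N := by linarith
  have hp1 : (1 : ℝ) ≤ p := by exact_mod_cast hp
  have hp0 : (0 : ℝ) < p := by linarith
  obtain ⟨δ, hδ⟩ : ∃ δ : ℝ, δ = N ^ (-w) := ⟨_, rfl⟩
  have hδ0 : 0 < δ := by rw [hδ]; positivity
  have hδ1 : δ ≤ 1 := by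
    rw [hδ]
    exact Real.rpow_le_one_of_one_le_of_nonpos hN (by linarith)
  have hNt0 : 0 < N ^ (-t) := by positivity
  have hNt1 : N ^ (-t) ≤ 1 := Real.rpow_le_one_of_one_le_of_nonpos hN (by linarith)
  have hpδ : (p : ℝ) * δ ≤ N ^ (-t) := by
    calc (p : ℝ) * δ ≤ N ^ e * N ^ (-w) := by rw [hδ]; exact mul_le_mul_of_nonneg_right hpN (by positivity)
      _ = N ^ (e - w) := by rw [← Real.rpow_add hN0]; ring_nf
      _ ≤ N ^ (-t) := Real.rpow_le_rpow_of_exponent_le hN (by linarith)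
  obtain ⟨M, hM⟩ : ∃ M : ℕ, M = ⌊(p : ℝ) * (R + 1) + A₀ + (c + 1)⌋₊ := ⟨_, rfl⟩
  obtain ⟨ρ, hρ⟩ : ∃ ρ : ℝ, ρ = (c + 1) * N ^ (-t) / (p * δ) := ⟨_, rfl⟩
  have hρ0 : 0 ≤ ρ := by rw [hρ]; positivity
  refine ⟨(Icc (-(M : ℤ)) M).biUnion fun u => Icc ⌈(a + u) / (p * δ) - ρ⌉ ⌊(a + u) / (p * δ) + ρ⌋, ?_, ?_⟩
  · have h1 : ∀ u ∈ Icc (-(M : ℤ)) M, ((Icc ⌈(a + u) / (p * δ) - ρ⌉ ⌊(a + u) / (p * δ) + ρ⌋).card : ℝ) ≤
        2 * ρ + 1 := by
      intro u _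
      rw [Int.card_Icc]
      have h2 := Int.floor_le ((a + u) / (p * δ) + ρ)
      have h3 := Int.le_ceil ((a + u) / (p * δ) - ρ)
      by_cases h4 : 0 ≤ ⌊(a + u) / (p * δ) + ρ⌋ + 1 - ⌈(a + u) / (p * δ) - ρ⌉
      · have h5 : ((⌊(a + u) / (p * δ) + ρ⌋ + 1 - ⌈(a + u) / (p * δ) - ρ⌉).toNat : ℝ) =
            ((⌊(a + u) / (p * δ) + ρ⌋ + 1 - ⌈(a + u) / (p * δ) - ρ⌉ : ℤ) : ℝ) := by
          exact_mod_cast Int.toNat_of_nonneg h4
        rw [h5]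
        push_cast
        linarith
      · rw [Int.toNat_of_nonpos (by omega)]
        push_cast
        linarith
    have h2 : ((((Icc (-(M : ℤ)) M).biUnion fun u =>
        Icc ⌈(a + u) / (p * δ) - ρ⌉ ⌊(a + u) / (p * δ) + ρ⌋)).card : ℝ) ≤ (2 * M + 1) * (2 * ρ + 1) := by
      calc _ ≤ ∑ u ∈ Icc (-(M : ℤ)) M, ((Icc ⌈(a + u) / (p * δ) - ρ⌉ ⌊(a + u) / (p * δ) + ρ⌋).card : ℝ) := by
            exact_mod_cast card_biUnion_le
        _ ≤ ∑ u ∈ Icc (-(M : ℤ)) M, (2 * ρ + 1) := sum_le_sum h1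
        _ = (2 * M + 1) * (2 * ρ + 1) := by
            rw [sum_const, nsmul_eq_mul, Int.card_Icc]
            congr 1
            have : ((M : ℤ) + 1 - -(M : ℤ)).toNat = 2 * M + 1 := by omega
            rw [this]
            push_cast
            ring
    refine h2.trans ?_
    have hMle : (M : ℝ) ≤ p * (R + 1) + A₀ + (c + 1) := by
      rw [hM]
      exact Nat.floor_le (by positivity)
    have h3 : 2 * (M : ℝ) + 1 ≤ (2 * (R + 1) + 2 * A₀ + 2 * (c + 1) + 1) * p := by nlinarith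
    have h4 : p * (2 * ρ + 1) ≤ (2 * c + 3) * N ^ (w - t) := by
      have h5 : p * (2 * ρ) = 2 * (c + 1) * N ^ (w - t) := by
        rw [hρ, hδ, show w - t = (-t) - (-w) by ring, Real.rpow_sub hN0]
        field_simp
      have h6 : (p : ℝ) ≤ N ^ (w - t) := hpN.trans (Real.rpow_le_rpow_of_exponent_le hN (by linarith))
      nlinarith
    have h5 : 0 ≤ 2 * (R + 1) + 2 * A₀ + 2 * (c + 1) + 1 := by positivity
    calc (2 * (M : ℝ) + 1) * (2 * ρ + 1) ≤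
          ((2 * (R + 1) + 2 * A₀ + 2 * (c + 1) + 1) * p) * (2 * ρ + 1) :=
          mul_le_mul_of_nonneg_right h3 (by positivity)
      _ = (2 * (R + 1) + 2 * A₀ + 2 * (c + 1) + 1) * (p * (2 * ρ + 1)) := by ring
      _ ≤ (2 * (R + 1) + 2 * A₀ + 2 * (c + 1) + 1) * ((2 * c + 3) * N ^ (w - t)) :=
          mul_le_mul_of_nonneg_left h4 h5
      _ = _ := by ring
  · rintro x hx ⟨u, hu⟩
    rw [← hδ]
    obtain ⟨g, hg⟩ : ∃ g : ℤ, g = round (x / δ) := ⟨_, rfl⟩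
    rw [← hg]
    have h1 : |x / δ - g| ≤ 1 / 2 := by rw [hg]; exact abs_sub_round _
    have h2 : |x - g * δ| ≤ δ / 2 := by
      have : x - g * δ = (x / δ - g) * δ := by field_simp
      rw [this, abs_mul, abs_of_pos hδ0]
      nlinarith
    have h3 : |(p : ℝ) * (g * δ) - a - u| ≤ (c + 1) * N ^ (-t) := by
      have e1 : (p : ℝ) * (g * δ) - a - u = ((p : ℝ) * x - a - u) - p * (x - g * δ) := by ring
      rw [e1]
      refine (abs_sub _ _).trans ?_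
      have e2 : |(p : ℝ) * (x - g * δ)| ≤ N ^ (-t) := by
        rw [abs_mul, abs_of_pos hp0]
        calc (p : ℝ) * |x - g * δ| ≤ p * (δ / 2) := mul_le_mul_of_nonneg_left h2 hp0.le
          _ ≤ p * δ := by nlinarith
          _ ≤ N ^ (-t) := hpδ
      linarith
    have h4 : |(g : ℝ) * δ| ≤ R + 1 := by
      have e1 : (g : ℝ) * δ = x - (x - g * δ) := by ring
      rw [e1]
      refine (abs_sub _ _).trans ?_
      linarith
    have h5 : |(u : ℝ)| ≤ p * (R + 1) + A₀ + (c + 1) := by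
      have e1 : (u : ℝ) = (p : ℝ) * (g * δ) - a - ((p : ℝ) * (g * δ) - a - u) := by ring
      rw [e1]
      refine (abs_sub _ _).trans ?_
      have e2 : |(p : ℝ) * (g * δ) - a| ≤ p * (R + 1) + A₀ := by
        refine (abs_sub _ _).trans ?_
        rw [abs_mul, abs_of_pos hp0]
        have := mul_le_mul_of_nonneg_left h4 hp0.le
        linarith
      have e3 : (c + 1) * N ^ (-t) ≤ c + 1 := by nlinarith
      linarith
    have h6 : |u| ≤ (M : ℤ) := by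
      have e1 : ((|u| : ℤ) : ℝ) ≤ p * (R + 1) + A₀ + (c + 1) := by
        push_cast
        exact h5
      have e2 : |u| ≤ ⌊(p : ℝ) * (R + 1) + A₀ + (c + 1)⌋ := Int.le_floor.2 e1
      rw [hM, Int.natCast_floor_eq_floor (by positivity)]
      exact e2
    rw [mem_biUnion]
    refine ⟨u, mem_Icc.2 (abs_le.1 h6), mem_Icc.2 ?_⟩
    have hpδ0 : 0 < (p : ℝ) * δ := by positivity
    have h7 : |(g : ℝ) - (a + u) / (p * δ)| ≤ ρ := by
      have e1 : (g : ℝ) - (a + u) / (p * δ) = ((p : ℝ) * (g * δ) - a - u) / (p * δ) := by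
        field_simp
        ring
      rw [e1, abs_div, abs_of_pos hpδ0, hρ]
      exact div_le_div_of_nonneg_right h3 hpδ0.le
    have h8 := abs_le.1 h7
    constructor
    · exact Int.ceil_le.2 (by linarith [h8.1])
    · exact Int.le_floor.2 (by linarith [h8.2])

/-- grid points near the solutions -/
lemma grid {m : ℕ} (a : Fin m → ℝ) {R c : ℝ} (hR : 0 ≤ R) (hc : 0 ≤ c) : ∃ C : ℝ, 0 ≤ C ∧
    ∀ N e t w : ℝ, 1 ≤ N → 0 ≤ t → 0 ≤ e → e + t ≤ w → ∀ p : ℕ, 1 ≤ p → (p : ℝ) ≤ N ^ e →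
      ∃ S : Finset (Fin m → ℤ), (S.card : ℝ) ≤ C * N ^ (m * (w - t)) ∧
        ∀ x : Fin m → ℝ, ‖x‖ ≤ R → Solves x a p (c * N ^ (-t)) →
          (fun j => round (x j / N ^ (-w))) ∈ S := by
  obtain ⟨C₁, hC₁⟩ : ∃ C₁ : ℝ, C₁ = (2 * (R + 1) + 2 * ‖a‖ + 2 * (c + 1) + 1) * (2 * c + 3) := ⟨_, rfl⟩
  have hC0 : 0 ≤ C₁ := by rw [hC₁]; positivity
  refine ⟨C₁ ^ m, by positivity, fun N e t w hN ht he hw p hp hpN => ?_⟩
  have h := fun j => grid_one hR hc (norm_nonneg a) (norm_le_pi_norm a j) hN ht he hw hp hpN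
  choose S hS1 hS2 using h
  refine ⟨Fintype.piFinset S, ?_, ?_⟩
  · rw [Fintype.card_piFinset]
    push_cast
    calc ∏ j, ((S j).card : ℝ) ≤ ∏ _j : Fin m, (C₁ * N ^ (w - t)) :=
          prod_le_prod (fun _ _ => Nat.cast_nonneg _) fun j _ => by rw [hC₁]; exact hS1 j
      _ = C₁ ^ m * N ^ (m * (w - t)) := by
          rw [prod_const, card_univ, Fintype.card_fin, mul_pow, mul_comm (m : ℝ), Real.rpow_mul_natCast
            (by linarith)]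
  · intro x hx hs
    rw [Fintype.mem_piFinset]
    intro j
    exact hS2 j (x j) ((norm_le_pi_norm x j).trans hx) (hs j)

/-- the dimension of a limsup set of pairs -/
theorem dim_pairs {m n : ℕ} (a : Fin m → ℝ) (b : Fin n → ℝ) {τ σ s w : ℝ} (hτ : 0 ≤ τ) (hσ : 0 ≤ σ)
    (hs : 0 ≤ s) (hw1 : 2 + 2 * τ ≤ w) (hw2 : 3 + 3 * σ ≤ w) (F : ℕ → Finset (ℕ × ℕ))
    (hF : ∀ k, ∀ z ∈ F k, 1 ≤ z.1 ∧ z.1 ≤ (2 ^ k) ^ 2 ∧ 1 ≤ z.2 ∧ z.2 ≤ (2 ^ k) ^ 3)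
    (hcard : ∃ C : ℝ, ∀ k, ((F k).card : ℝ) ≤ C * ((2 : ℝ) ^ k) ^ s) (R c : ℕ) :
    dimH {z : (Fin m → ℝ) × (Fin n → ℝ) | ‖z‖ ≤ R ∧ {k : ℕ | ∃ y ∈ F k,
      Solves z.1 a y.1 (c * ((2 : ℝ) ^ k) ^ (-(2 * τ))) ∧
      Solves z.2 b y.2 (c * ((2 : ℝ) ^ k) ^ (-(3 * σ)))}.Infinite} ≤
      ENNReal.ofReal (m + n - (2 * m * τ + 3 * n * σ - s) / w) := by
  have hw0 : 0 < w := by linarith
  apply ENNReal.le_of_forall_pos_le_add
  intro ε hε _
  have hε' : (0 : ℝ) < ε := by exact_mod_cast hε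
  have hnn : 0 ≤ (m : ℝ) + n - (2 * m * τ + 3 * n * σ - s) / w := by
    rw [sub_nonneg, div_le_iff₀ hw0]
    have e1 : (m : ℝ) * (2 * τ) ≤ m * w := mul_le_mul_of_nonneg_left (by linarith) (Nat.cast_nonneg m)
    have e2 : (n : ℝ) * (3 * σ) ≤ n * w := mul_le_mul_of_nonneg_left (by linarith) (Nat.cast_nonneg n)
    nlinarith
  rw [← ENNReal.ofReal_coe_nnreal (p := ε), ← ENNReal.ofReal_add hnn hε'.le]
  obtain ⟨D, hD⟩ : ∃ D : ℝ, D = (m : ℝ) + n - (2 * m * τ + 3 * n * σ - s) / w + ε := ⟨_, rfl⟩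
  rw [← hD]
  have hD0 : 0 < D := by rw [hD]; positivity
  have hwD : w * D = w * (m + n) - (2 * m * τ + 3 * n * σ - s) + w * ε := by
    rw [hD]
    field_simp
  obtain ⟨C, hC⟩ := hcard
  obtain ⟨C₁, hC₁, g₁⟩ := grid a (R := R) (c := c) (Nat.cast_nonneg _) (Nat.cast_nonneg _)
  obtain ⟨C₂, hC₂, g₂⟩ := grid b (R := R) (c := c) (Nat.cast_nonneg _) (Nat.cast_nonneg _)
  have hN : ∀ k : ℕ, (1 : ℝ) ≤ 2 ^ k := fun k => one_le_pow₀ (by norm_num)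
  have hex1 : ∀ (k : ℕ) (p : ℕ), ∃ S : Finset (Fin m → ℤ), (1 ≤ p → p ≤ (2 ^ k) ^ 2 →
      (S.card : ℝ) ≤ C₁ * ((2 : ℝ) ^ k) ^ (m * (w - 2 * τ)) ∧
      ∀ x : Fin m → ℝ, ‖x‖ ≤ R → Solves x a p (c * ((2 : ℝ) ^ k) ^ (-(2 * τ))) →
          (fun j => round (x j / ((2 : ℝ) ^ k) ^ (-w))) ∈ S) := by
    intro k p
    by_cases h : 1 ≤ p ∧ p ≤ (2 ^ k) ^ 2
    · obtain ⟨S, h1, h2⟩ := g₁ (2 ^ k) 2 (2 * τ) w (hN k) (by linarith) (by norm_num) hw1 p h.1 (by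
        have : (p : ℝ) ≤ (2 ^ k) ^ 2 := by exact_mod_cast h.2
        rw [Real.rpow_two]
        exact this)
      exact ⟨S, fun _ _ => ⟨h1, h2⟩⟩
    · exact ⟨∅, fun h1 h2 => absurd ⟨h1, h2⟩ h⟩
  have hex2 : ∀ (k : ℕ) (p : ℕ), ∃ S : Finset (Fin n → ℤ), (1 ≤ p → p ≤ (2 ^ k) ^ 3 →
      (S.card : ℝ) ≤ C₂ * ((2 : ℝ) ^ k) ^ (n * (w - 3 * σ)) ∧
      ∀ x : Fin n → ℝ, ‖x‖ ≤ R → Solves x b p (c * ((2 : ℝ) ^ k) ^ (-(3 * σ))) →
          (fun j => round (x j / ((2 : ℝ) ^ k) ^ (-w))) ∈ S) := by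
    intro k p
    by_cases h : 1 ≤ p ∧ p ≤ (2 ^ k) ^ 3
    · obtain ⟨S, h1, h2⟩ := g₂ (2 ^ k) 3 (3 * σ) w (hN k) (by linarith) (by norm_num) hw2 p h.1 (by
        have : (p : ℝ) ≤ (2 ^ k) ^ 3 := by exact_mod_cast h.2
        have e : ((2 : ℝ) ^ k) ^ (3 : ℝ) = (2 ^ k) ^ 3 := by
          rw [← Real.rpow_natCast ((2 : ℝ) ^ k) 3]
          norm_num
        rw [e]
        exact this)
      exact ⟨S, fun _ _ => ⟨h1, h2⟩⟩
    · exact ⟨∅, fun h1 h2 => absurd ⟨h1, h2⟩ h⟩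
  choose S hS using hex1
  choose S' hS' using hex2
  obtain ⟨T, hT⟩ : ∃ T : ℕ → Finset ((ℕ × ℕ) × (Fin m → ℤ) × (Fin n → ℤ)), T = fun k =>
      (F k).biUnion fun y => {y} ×ˢ (S k y.1 ×ˢ S' k y.2) := ⟨_, rfl⟩
  have hTc : ∀ k, ((T k).card : ℝ) ≤ (|C| * C₁ * C₂) *
      ((2 : ℝ) ^ k) ^ (s + m * (w - 2 * τ) + n * (w - 3 * σ)) := by
    intro k
    have hk0 : (0 : ℝ) < 2 ^ k := by positivity
    have h1 : ((T k).card : ℝ) ≤ ∑ y ∈ F k, (C₁ * ((2 : ℝ) ^ k) ^ (m * (w - 2 * τ))) *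
        (C₂ * ((2 : ℝ) ^ k) ^ (n * (w - 3 * σ))) := by
      calc ((T k).card : ℝ) ≤ ∑ y ∈ F k, ((({y} : Finset (ℕ × ℕ)) ×ˢ (S k y.1 ×ˢ S' k y.2)).card : ℝ) := by
            rw [hT]
            exact_mod_cast card_biUnion_le
        _ ≤ _ := by
            refine sum_le_sum fun y hy => ?_
            obtain ⟨h1, h2, h3, h4⟩ := hF k y hy
            rw [card_product, card_product, card_singleton, one_mul]
            push_cast
            exact mul_le_mul (hS k y.1 h1 h2).1 (hS' k y.2 h3 h4).1 (Nat.cast_nonneg _) (by positivity)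
    refine h1.trans ?_
    rw [sum_const, nsmul_eq_mul]
    have h2 : ((F k).card : ℝ) ≤ |C| * ((2 : ℝ) ^ k) ^ s := (hC k).trans
      (mul_le_mul_of_nonneg_right (le_abs_self C) (by positivity))
    calc ((F k).card : ℝ) * ((C₁ * ((2 : ℝ) ^ k) ^ (m * (w - 2 * τ))) *
        (C₂ * ((2 : ℝ) ^ k) ^ (n * (w - 3 * σ)))) ≤
          (|C| * ((2 : ℝ) ^ k) ^ s) * ((C₁ * ((2 : ℝ) ^ k) ^ (m * (w - 2 * τ))) *
        (C₂ * ((2 : ℝ) ^ k) ^ (n * (w - 3 * σ)))) := mul_le_mul_of_nonneg_right h2 (by positivity)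
      _ = _ := by
          rw [Real.rpow_add hk0, Real.rpow_add hk0]
          ring
  obtain ⟨U, hU⟩ : ∃ U : (Σ k : ℕ, {t // t ∈ T k}) → Set ((Fin m → ℝ) × (Fin n → ℝ)), U = fun i =>
      {z | (∀ j, |z.1 j - (i.2.1.2.1 j : ℝ) * ((2 : ℝ) ^ i.1) ^ (-w)| ≤ ((2 : ℝ) ^ i.1) ^ (-w)) ∧
        ∀ j, |z.2 j - (i.2.1.2.2 j : ℝ) * ((2 : ℝ) ^ i.1) ^ (-w)| ≤ ((2 : ℝ) ^ i.1) ^ (-w)} := ⟨_, rfl⟩
  have h1 := Pool.Agent.R479.DB.dimH_limsup U (fun i => 2 * ((2 : ℝ) ^ i.1) ^ (-w))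
    (fun i => by positivity) (fun i => by
      rw [hU]
      refine Metric.ediam_le fun x hx y hy => ?_
      rw [edist_dist]
      apply ENNReal.ofReal_le_ofReal
      have hδ : 0 ≤ ((2 : ℝ) ^ i.1) ^ (-w) := by positivity
      rw [Prod.dist_eq]
      refine max_le ?_ ?_
      · rw [dist_pi_le_iff (by positivity)]
        intro j
        rw [Real.dist_eq]
        have a1 := abs_le.1 (hx.1 j)
        have a2 := abs_le.1 (hy.1 j)
        rw [abs_le]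
        constructor <;> linarith [a1.1, a1.2, a2.1, a2.2]
      · rw [dist_pi_le_iff (by positivity)]
        intro j
        rw [Real.dist_eq]
        have a1 := abs_le.1 (hx.2 j)
        have a2 := abs_le.1 (hy.2 j)
        rw [abs_le]
        constructor <;> linarith [a1.1, a1.2, a2.1, a2.2]) hD0 (by
      rw [summable_sigma_of_nonneg (fun i => by positivity)]
      refine ⟨fun k => Summable.of_finite, ?_⟩
      have hgeo : Summable fun k : ℕ => (2 ^ D * (|C| * C₁ * C₂)) * (((2 : ℝ) ^ (-(w * ε))) ^ k) := by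
        refine (summable_geometric_of_lt_one (by positivity) ?_).mul_left _
        exact Real.rpow_lt_one_of_one_lt_of_neg (by norm_num) (by
          have : 0 < w * ε := by positivity
          linarith)
      refine Summable.of_nonneg_of_le (fun k => tsum_nonneg fun _ => by positivity) (fun k => ?_) hgeo
      rw [tsum_fintype]
      show ∑ _x : {t // t ∈ T k}, (2 * ((2 : ℝ) ^ k) ^ (-w)) ^ D ≤ _
      rw [sum_const, card_univ, Fintype.card_coe, nsmul_eq_mul]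
      have hk0 : (0 : ℝ) < 2 ^ k := by positivity
      have e1 : (2 * ((2 : ℝ) ^ k) ^ (-w)) ^ D = 2 ^ D * ((2 : ℝ) ^ k) ^ (-(w * D)) := by
        rw [Real.mul_rpow (by norm_num) (by positivity), ← Real.rpow_mul hk0.le]
        congr 2
        ring
      have e2 : ((2 : ℝ) ^ (-(w * ε))) ^ k = ((2 : ℝ) ^ k) ^ (-(w * ε)) := by
        rw [← Real.rpow_natCast ((2 : ℝ) ^ (-(w * ε))) k, ← Real.rpow_natCast (2 : ℝ) k,
          ← Real.rpow_mul (by norm_num), ← Real.rpow_mul (by norm_num), mul_comm]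
      rw [e1, e2]
      calc ((T k).card : ℝ) * (2 ^ D * ((2 : ℝ) ^ k) ^ (-(w * D))) ≤
            ((|C| * C₁ * C₂) * ((2 : ℝ) ^ k) ^ (s + m * (w - 2 * τ) + n * (w - 3 * σ))) *
              (2 ^ D * ((2 : ℝ) ^ k) ^ (-(w * D))) :=
            mul_le_mul_of_nonneg_right (hTc k) (by positivity)
        _ = 2 ^ D * (|C| * C₁ * C₂) * (((2 : ℝ) ^ k) ^ (s + m * (w - 2 * τ) + n * (w - 3 * σ)) *
              ((2 : ℝ) ^ k) ^ (-(w * D))) := by ring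
        _ = 2 ^ D * (|C| * C₁ * C₂) * ((2 : ℝ) ^ k) ^ (-(w * ε)) := by
            rw [← Real.rpow_add hk0]
            congr 2
            rw [hwD]
            ring)
  refine le_trans (dimH_mono ?_) h1
  rintro z ⟨hz, hz2⟩
  simp only [Set.mem_ofPred_eq]
  intro hfin
  apply hz2
  refine (hfin.image Sigma.fst).subset ?_
  rintro k ⟨y, hy, h3, h4⟩
  obtain ⟨b1, b2, b3, b4⟩ := hF k y hy
  have hδ : 0 < ((2 : ℝ) ^ k) ^ (-w) := by positivity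
  have r1 := (hS k y.1 b1 b2).2 z.1 ((le_max_left _ _).trans hz) h3
  have r2 := (hS' k y.2 b3 b4).2 z.2 ((le_max_right _ _).trans hz) h4
  have hmem : (y, (fun j => round (z.1 j / ((2 : ℝ) ^ k) ^ (-w))),
      (fun j => round (z.2 j / ((2 : ℝ) ^ k) ^ (-w)))) ∈ T k := by
    rw [hT]
    simp only [mem_biUnion, mem_product, mem_singleton]
    exact ⟨y, hy, rfl, r1, r2⟩
  have near : ∀ x : ℝ, |x - (round (x / ((2 : ℝ) ^ k) ^ (-w)) : ℝ) * ((2 : ℝ) ^ k) ^ (-w)| ≤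
      ((2 : ℝ) ^ k) ^ (-w) := by
    intro x
    have e1 : x - (round (x / ((2 : ℝ) ^ k) ^ (-w)) : ℝ) * ((2 : ℝ) ^ k) ^ (-w) =
        (x / ((2 : ℝ) ^ k) ^ (-w) - round (x / ((2 : ℝ) ^ k) ^ (-w))) * ((2 : ℝ) ^ k) ^ (-w) := by
      field_simp
    rw [e1, abs_mul, abs_of_pos hδ]
    have e2 := abs_sub_round (x / ((2 : ℝ) ^ k) ^ (-w))
    nlinarith
  refine ⟨⟨k, ⟨_, hmem⟩⟩, ?_, rfl⟩
  rw [hU]
  exact ⟨fun j => near (z.1 j), fun j => near (z.2 j)⟩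

end Pool.Agent.N284.DA
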