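import Pool.Agent.N284.DA.Pair

/-!
# Pairs of denominators of good approximations and thin sets of pairs of integers (helper284)
-/

set_option autoImplicit false

namespace Pool.Agent.N284.DA

open Finset Classical
open Pool.Agent.N671.DA (Solves Expanding step_sum)

/-- the number of `v` such that `G v` is in a short interval -/
lemma near_count {G : ℕ → ℝ} {d : ℝ} (hG : Expanding G d) : ∃ K : ℝ, 0 ≤ K ∧ ∀ (x W : ℝ) (X : ℕ), 1 ≤ W →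
    (((Icc 1 X).filter (fun v : ℕ => |x - G v| ≤ W)).card : ℝ) ≤ K * W := by
  obtain ⟨a, ha, hstep⟩ := hG.step
  refine ⟨2 / a + 1, by positivity, fun x W X hW => ?_⟩
  have h0 : (0 : ℝ) ≤ 2 * W / a := by positivity
  rcases ((Icc 1 X).filter (fun v : ℕ => |x - G v| ≤ W)).eq_empty_or_nonempty with he | he
  · rw [he]
    simp only [card_empty, Nat.cast_zero]
    positivity
  · obtain ⟨v0, hv0⟩ : ∃ v0, v0 = ((Icc 1 X).filter (fun v : ℕ => |x - G v| ≤ W)).min' he := ⟨_, rfl⟩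
    have hv0m : v0 ∈ (Icc 1 X).filter (fun v : ℕ => |x - G v| ≤ W) := by rw [hv0]; exact min'_mem _ _
    have hs' : (Icc 1 X).filter (fun v : ℕ => |x - G v| ≤ W) ⊆ Icc v0 (v0 + ⌊2 * W / a⌋₊) := by
      intro v hv
      have h1 : v0 ≤ v := by rw [hv0]; exact min'_le _ _ hv
      rw [mem_Icc]
      refine ⟨h1, ?_⟩
      rw [mem_filter, mem_Icc] at hv hv0m
      have h2 := abs_le.1 hv.2
      have h3 := abs_le.1 hv0m.2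
      have h4 : ((v - v0 : ℕ) : ℝ) ≤ 2 * W / a := by
        rw [le_div_iff₀ ha]
        have := step_sum hstep hv0m.1.1 h1
        linarith [h2.1, h3.2]
      have := Nat.le_floor h4
      omega
    have h5 := card_le_card hs'
    rw [Nat.card_Icc] at h5
    have h6 : (((((Icc 1 X).filter (fun v : ℕ => |x - G v| ≤ W))).card : ℕ) : ℝ) ≤ (⌊2 * W / a⌋₊ : ℝ) + 1 := by
      have : ((Icc 1 X).filter (fun v : ℕ => |x - G v| ≤ W)).card ≤ ⌊2 * W / a⌋₊ + 1 := by omega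
      exact_mod_cast this
    have h7 := Nat.floor_le h0
    calc _ ≤ (⌊2 * W / a⌋₊ : ℝ) + 1 := h6
      _ ≤ 2 * W / a + W := by linarith
      _ = (2 / a + 1) * W := by ring

/-- **Pairs of denominators of good approximations avoid thin sets of pairs.** -/
theorem pair_windows {P : ℤ × ℤ → ℝ → Prop} (hmono : ∀ z X Y, X ≤ Y → P z X → P z Y) {s C : ℝ} (hs : 0 ≤ s)
    (hP : ∀ R : ℝ, 1 ≤ R → {z : ℤ × ℤ | |(z.1 : ℝ)| ≤ R ^ 2 ∧ |(z.2 : ℝ)| ≤ R ^ 3 ∧ P z R}.Finite ∧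
      ({z : ℤ × ℤ | |(z.1 : ℝ)| ≤ R ^ 2 ∧ |(z.2 : ℝ)| ≤ R ^ 3 ∧ P z R}.ncard : ℝ) ≤ C * R ^ s)
    {G H : ℕ → ℝ} {d : ℝ} (hG : Expanding G d) (hH : Expanding H d) {κ τ σ w : ℝ} (hκ : 0 ≤ κ) (hκ1 : κ ≤ 1)
    (hτ : 0 ≤ τ) (hσ : 0 ≤ σ) (hw1 : 2 + 2 * τ ≤ w) (hw2 : 3 + 3 * σ ≤ w) {m n : ℕ} (a : Fin m → ℝ)
    (b : Fin n → ℝ) : ∃ E : Set ((Fin m → ℝ) × (Fin n → ℝ)),
      dimH E ≤ ENNReal.ofReal (m + n - (2 * m * τ + 3 * n * σ - (d * s + 5 * κ)) / w) ∧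
      ∀ α β, (α, β) ∉ E → ∀ c : ℝ, ∃ N₀ : ℕ, ∀ N : ℕ, N₀ ≤ N → ∀ p q : ℕ, 1 ≤ p → p ≤ N ^ 2 → 1 ≤ q → q ≤ N ^ 3 →
        Solves α a p (c * (N : ℝ) ^ (-(2 * τ))) → Solves β b q (c * (N : ℝ) ^ (-(3 * σ))) →
        ∀ A B : ℤ, |(|(A : ℝ)| - G p)| ≤ (N : ℝ) ^ (2 * κ) → |(|(B : ℝ)| - H q)| ≤ (N : ℝ) ^ (3 * κ) →
          ¬ P (A, B) ((N : ℝ) ^ d) := by
  have hd := hG.one_le
  obtain ⟨K₁, hK₁, n₁⟩ := near_count hG
  obtain ⟨K₂, hK₂, n₂⟩ := near_count hH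
  obtain ⟨C₁, hC₁⟩ := hG.growth
  obtain ⟨C₂, hC₂⟩ := hH.growth
  obtain ⟨C₀, hC₀⟩ : ∃ C₀ : ℝ, C₀ = |C₁| + |C₂| + 1 := ⟨_, rfl⟩
  have hC₀1 : 1 ≤ C₀ := by rw [hC₀]; linarith [abs_nonneg C₁, abs_nonneg C₂]
  obtain ⟨R, hR⟩ : ∃ R : ℕ → ℝ, R = fun k => C₀ * ((2 : ℝ) ^ k) ^ d := ⟨_, rfl⟩
  have hN1 : ∀ k : ℕ, (1 : ℝ) ≤ 2 ^ k := fun k => one_le_pow₀ (by norm_num)
  have hR1 : ∀ k, 1 ≤ R k := fun k => by
    rw [hR]
    exact one_le_mul_of_one_le_of_one_le hC₀1 (Real.one_le_rpow (hN1 k) (by linarith))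
  obtain ⟨Xs, hXs⟩ : ∃ Xs : ℕ → Set (ℤ × ℤ), Xs = fun k =>
      {z : ℤ × ℤ | |(z.1 : ℝ)| ≤ (R k) ^ 2 ∧ |(z.2 : ℝ)| ≤ (R k) ^ 3 ∧ P z (R k)} := ⟨_, rfl⟩
  have hfin : ∀ k, (Xs k).Finite := fun k => by rw [hXs]; exact (hP (R k) (hR1 k)).1
  have hnc : ∀ k, ((Xs k).ncard : ℝ) ≤ C * (R k) ^ s := fun k => by rw [hXs]; exact (hP (R k) (hR1 k)).2
  obtain ⟨F, hF⟩ : ∃ F : ℕ → Finset (ℕ × ℕ), F = fun k =>
      (Icc 1 ((2 ^ k) ^ 2) ×ˢ Icc 1 ((2 ^ k) ^ 3)).filter fun y => ∃ z ∈ Xs k,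
        |(|(z.1 : ℝ)| - G y.1)| ≤ ((2 : ℝ) ^ k) ^ (2 * κ) ∧ |(|(z.2 : ℝ)| - H y.2)| ≤ ((2 : ℝ) ^ k) ^ (3 * κ) :=
    ⟨_, rfl⟩
  have hFb : ∀ k, ∀ z ∈ F k, 1 ≤ z.1 ∧ z.1 ≤ (2 ^ k) ^ 2 ∧ 1 ≤ z.2 ∧ z.2 ≤ (2 ^ k) ^ 3 := by
    intro k z hz
    rw [hF, mem_filter, mem_product, mem_Icc, mem_Icc] at hz
    exact ⟨hz.1.1.1, hz.1.1.2, hz.1.2.1, hz.1.2.2⟩
  have hFc : ∃ C' : ℝ, ∀ k, ((F k).card : ℝ) ≤ C' * ((2 : ℝ) ^ k) ^ (d * s + 5 * κ) := by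
    refine ⟨|C| * C₀ ^ s * (K₁ * K₂), fun k => ?_⟩
    have hk0 : (0 : ℝ) < 2 ^ k := by positivity
    have hsub : F k ⊆ (hfin k).toFinset.biUnion fun z =>
        ((Icc 1 ((2 ^ k) ^ 2)).filter fun v : ℕ => |(|(z.1 : ℝ)| - G v)| ≤ ((2 : ℝ) ^ k) ^ (2 * κ)) ×ˢ
        ((Icc 1 ((2 ^ k) ^ 3)).filter fun v : ℕ => |(|(z.2 : ℝ)| - H v)| ≤ ((2 : ℝ) ^ k) ^ (3 * κ)) := by
      intro y hy
      rw [hF, mem_filter, mem_product] at hy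
      obtain ⟨⟨h1, h2⟩, z, hz, h3, h4⟩ := hy
      rw [mem_biUnion]
      refine ⟨z, (hfin k).mem_toFinset.2 hz, ?_⟩
      rw [mem_product, mem_filter, mem_filter]
      exact ⟨⟨h1, h3⟩, h2, h4⟩
    have h1 : ((F k).card : ℝ) ≤ ∑ z ∈ (hfin k).toFinset, (K₁ * ((2 : ℝ) ^ k) ^ (2 * κ)) *
        (K₂ * ((2 : ℝ) ^ k) ^ (3 * κ)) := by
      have h2 := (card_le_card hsub).trans card_biUnion_le
      have h3 : ((F k).card : ℝ) ≤ ∑ z ∈ (hfin k).toFinset,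
          ((((Icc 1 ((2 ^ k) ^ 2)).filter fun v : ℕ => |(|(z.1 : ℝ)| - G v)| ≤ ((2 : ℝ) ^ k) ^ (2 * κ)) ×ˢ
          ((Icc 1 ((2 ^ k) ^ 3)).filter fun v : ℕ => |(|(z.2 : ℝ)| - H v)| ≤ ((2 : ℝ) ^ k) ^ (3 * κ))).card : ℝ) := by
        exact_mod_cast h2
      refine h3.trans (sum_le_sum fun z _ => ?_)
      rw [card_product]
      push_cast
      exact mul_le_mul (n₁ _ _ _ (Real.one_le_rpow (hN1 k) (by linarith)))
        (n₂ _ _ _ (Real.one_le_rpow (hN1 k) (by linarith))) (Nat.cast_nonneg _) (by positivity)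
    refine h1.trans ?_
    rw [sum_const, nsmul_eq_mul, ← Set.ncard_eq_toFinset_card _ (hfin k)]
    have h2 : (R k) ^ s = C₀ ^ s * ((2 : ℝ) ^ k) ^ (d * s) := by
      rw [hR]
      show (C₀ * ((2 : ℝ) ^ k) ^ d) ^ s = _
      rw [Real.mul_rpow (by linarith) (by positivity), ← Real.rpow_mul hk0.le]
    calc ((Xs k).ncard : ℝ) * ((K₁ * ((2 : ℝ) ^ k) ^ (2 * κ)) * (K₂ * ((2 : ℝ) ^ k) ^ (3 * κ))) ≤
          (|C| * (C₀ ^ s * ((2 : ℝ) ^ k) ^ (d * s))) *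
            ((K₁ * ((2 : ℝ) ^ k) ^ (2 * κ)) * (K₂ * ((2 : ℝ) ^ k) ^ (3 * κ))) := by
          refine mul_le_mul_of_nonneg_right ?_ (by positivity)
          rw [← h2]
          exact (hnc k).trans (mul_le_mul_of_nonneg_right (le_abs_self C) (by
            have := hR1 k
            positivity))
      _ = |C| * C₀ ^ s * (K₁ * K₂) * (((2 : ℝ) ^ k) ^ (d * s) * ((2 : ℝ) ^ k) ^ (2 * κ) *
            ((2 : ℝ) ^ k) ^ (3 * κ)) := by ring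
      _ = _ := by
          rw [← Real.rpow_add hk0, ← Real.rpow_add hk0]
          congr 2
          ring
  refine ⟨⋃ (R' : ℕ) (c : ℕ), {z : (Fin m → ℝ) × (Fin n → ℝ) | ‖z‖ ≤ R' ∧ {k : ℕ | ∃ y ∈ F k,
      Solves z.1 a y.1 (c * ((2 : ℝ) ^ k) ^ (-(2 * τ))) ∧
      Solves z.2 b y.2 (c * ((2 : ℝ) ^ k) ^ (-(3 * σ)))}.Infinite}, ?_, fun α β hαβ c => ?_⟩
  · rw [dimH_iUnion]
    refine iSup_le fun R' => ?_
    rw [dimH_iUnion]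
    exact iSup_le fun c => dim_pairs a b hτ hσ (by positivity) hw1 hw2 F hFb hFc R' c
  · obtain ⟨R', hR'⟩ := exists_nat_ge ‖(α, β)‖
    obtain ⟨c', hc'⟩ := exists_nat_ge (|c| * 2 ^ (2 * τ) + |c| * 2 ^ (3 * σ))
    have hfin2 : {k : ℕ | ∃ y ∈ F k, Solves α a y.1 (c' * ((2 : ℝ) ^ k) ^ (-(2 * τ))) ∧
        Solves β b y.2 (c' * ((2 : ℝ) ^ k) ^ (-(3 * σ)))}.Finite := by
      by_contra hcon
      exact hαβ (Set.mem_iUnion.2 ⟨R', Set.mem_iUnion.2 ⟨c', hR', hcon⟩⟩)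
    obtain ⟨B₀, hB₀⟩ := hfin2.bddAbove
    refine ⟨2 ^ B₀ + 2, fun N hN p q hp hpN hq hqN hs1 hs2 A B hA hB hPA => ?_⟩
    have h2B : 1 ≤ 2 ^ B₀ := Nat.one_le_two_pow
    have hN2 : 2 ≤ N := by omega
    have hNr : (1 : ℝ) ≤ N := by exact_mod_cast (by omega : 1 ≤ N)
    have hNr0 : (0 : ℝ) < N := by linarith
    obtain ⟨k, hk⟩ : ∃ k, k = Nat.clog 2 N := ⟨_, rfl⟩
    have hk1 : N ≤ 2 ^ k := by rw [hk]; exact Nat.le_pow_clog (by norm_num) N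
    have hk2 : 2 ^ k ≤ 2 * N := by
      have h1 := Nat.pow_pred_clog_lt_self (b := 2) (by norm_num) (by omega : 1 < N)
      rw [← hk] at h1
      have h2 : 2 ^ k ≤ 2 * 2 ^ k.pred := by
        rcases k with _ | k
        · norm_num
        · rw [Nat.pred_succ, pow_succ]
          omega
      omega
    have hkB : B₀ < k := by
      by_contra hcon
      push Not at hcon
      have h1 : 2 ^ k ≤ 2 ^ B₀ := Nat.pow_le_pow_right (by norm_num) hcon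
      omega
    have hk1r : (N : ℝ) ≤ 2 ^ k := by exact_mod_cast hk1
    have hk2r : (2 : ℝ) ^ k ≤ 2 * N := by exact_mod_cast hk2
    have hk0 : (0 : ℝ) < 2 ^ k := by positivity
    have hpow : ∀ t : ℝ, 0 ≤ t → (N : ℝ) ^ (-t) ≤ 2 ^ t * ((2 : ℝ) ^ k) ^ (-t) := by
      intro t ht
      have h1 : (2 * (N : ℝ)) ^ (-t) ≤ ((2 : ℝ) ^ k) ^ (-t) :=
        Real.rpow_le_rpow_of_nonpos hk0 hk2r (by linarith)
      rw [Real.mul_rpow (by norm_num) hNr0.le, Real.rpow_neg (by norm_num : (0 : ℝ) ≤ 2)] at h1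
      have h2 : (0 : ℝ) < 2 ^ t := by positivity
      rw [inv_mul_le_iff₀ h2] at h1
      exact h1
    have hsol : ∀ t : ℝ, 0 ≤ t → |c| * 2 ^ t ≤ c' → c * (N : ℝ) ^ (-t) ≤ c' * ((2 : ℝ) ^ k) ^ (-t) := by
      intro t ht hct
      have h0 : 0 ≤ (N : ℝ) ^ (-t) := by positivity
      calc c * (N : ℝ) ^ (-t) ≤ |c| * (N : ℝ) ^ (-t) := mul_le_mul_of_nonneg_right (le_abs_self c) h0
        _ ≤ |c| * (2 ^ t * ((2 : ℝ) ^ k) ^ (-t)) := mul_le_mul_of_nonneg_left (hpow t ht) (abs_nonneg c)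
        _ = (|c| * 2 ^ t) * ((2 : ℝ) ^ k) ^ (-t) := by ring
        _ ≤ c' * ((2 : ℝ) ^ k) ^ (-t) := mul_le_mul_of_nonneg_right hct (by positivity)
    have hNd1 : 1 ≤ (N : ℝ) ^ d := Real.one_le_rpow hNr (by linarith)
    have hNk : (N : ℝ) ^ d ≤ ((2 : ℝ) ^ k) ^ d := Real.rpow_le_rpow hNr0.le hk1r (by linarith)
    have hkd0 : 0 < ((2 : ℝ) ^ k) ^ d := by positivity
    -- the sizes
    have hsize : ∀ (C' : ℝ) (g : ℝ) (v j : ℕ) (x : ℝ), g ≤ C' * (v : ℝ) ^ d → v ≤ N ^ j → |C'| + 1 ≤ C₀ ^ j →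
        |(|x| - g)| ≤ (N : ℝ) ^ ((j : ℝ) * κ) → |x| ≤ (R k) ^ j := by
      intro C' g v j x hg hv hC' hx
      have h1 : |x| ≤ g + (N : ℝ) ^ ((j : ℝ) * κ) := by linarith [(abs_le.1 hx).2]
      have h2 : (v : ℝ) ^ d ≤ ((N : ℝ) ^ d) ^ j := by
        have h3 : (v : ℝ) ≤ (N : ℝ) ^ j := by exact_mod_cast hv
        calc (v : ℝ) ^ d ≤ ((N : ℝ) ^ j) ^ d := Real.rpow_le_rpow (Nat.cast_nonneg _) h3 (by linarith)
          _ = ((N : ℝ) ^ d) ^ j := by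
              rw [← Real.rpow_natCast, ← Real.rpow_natCast, ← Real.rpow_mul hNr0.le, ← Real.rpow_mul hNr0.le,
                mul_comm]
      have h3 : (N : ℝ) ^ ((j : ℝ) * κ) ≤ ((N : ℝ) ^ d) ^ j := by
        rw [← Real.rpow_natCast ((N : ℝ) ^ d) j, ← Real.rpow_mul hNr0.le]
        refine Real.rpow_le_rpow_of_exponent_le hNr ?_
        rw [mul_comm d]
        exact mul_le_mul_of_nonneg_left (by linarith) (Nat.cast_nonneg j)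
      have h4 : C' * (v : ℝ) ^ d ≤ |C'| * ((N : ℝ) ^ d) ^ j :=
        (mul_le_mul_of_nonneg_right (le_abs_self C') (by positivity)).trans
          (mul_le_mul_of_nonneg_left h2 (abs_nonneg C'))
      have h5 : ((N : ℝ) ^ d) ^ j ≤ (((2 : ℝ) ^ k) ^ d) ^ j := pow_le_pow_left₀ (by positivity) hNk j
      calc |x| ≤ (|C'| + 1) * ((N : ℝ) ^ d) ^ j := by linarith
        _ ≤ C₀ ^ j * (((2 : ℝ) ^ k) ^ d) ^ j := mul_le_mul hC' h5 (by positivity) (by positivity)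
        _ = (R k) ^ j := by rw [hR, mul_pow]
    have hC₀2 : C₀ ≤ C₀ ^ 2 := by nlinarith
    have hC₀3 : C₀ ≤ C₀ ^ 3 := hC₀2.trans (pow_le_pow_right₀ hC₀1 (by norm_num))
    have hA' : |(A : ℝ)| ≤ (R k) ^ 2 := by
      refine hsize C₁ (G p) p 2 A (hC₁ p hp) hpN ?_ (by exact_mod_cast hA)
      rw [hC₀] at hC₀2 ⊢
      linarith [abs_nonneg C₂]
    have hB' : |(B : ℝ)| ≤ (R k) ^ 3 := by
      refine hsize C₂ (H q) q 3 B (hC₂ q hq) hqN ?_ (by exact_mod_cast hB)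
      rw [hC₀] at hC₀3 ⊢
      linarith [abs_nonneg C₁]
    have hz : (A, B) ∈ Xs k := by
      rw [hXs]
      refine ⟨hA', hB', hmono _ _ _ ?_ hPA⟩
      rw [hR]
      show (N : ℝ) ^ d ≤ C₀ * ((2 : ℝ) ^ k) ^ d
      nlinarith
    have hw : ∀ t : ℝ, 0 ≤ t → (N : ℝ) ^ t ≤ ((2 : ℝ) ^ k) ^ t := fun t ht =>
      Real.rpow_le_rpow hNr0.le hk1r ht
    have hy : (p, q) ∈ F k := by
      rw [hF, mem_filter, mem_product, mem_Icc, mem_Icc]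
      refine ⟨⟨⟨hp, hpN.trans (Nat.pow_le_pow_left hk1 2)⟩, hq, hqN.trans (Nat.pow_le_pow_left hk1 3)⟩,
        (A, B), hz, hA.trans (hw _ (by linarith)), hB.trans (hw _ (by linarith))⟩
    have h0 : 0 ≤ |c| * 2 ^ (2 * τ) := by positivity
    have h0' : 0 ≤ |c| * 2 ^ (3 * σ) := by positivity
    have hmem : k ≤ B₀ := hB₀ ⟨(p, q), hy, hs1.mono (hsol _ (by linarith) (by linarith)),
      hs2.mono (hsol _ (by linarith) (by linarith))⟩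
    omega

end Pool.Agent.N284.DA
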